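import Pool.Agent.Y426.RZ.Cert

/-!
# MP_d03285_co: sets avoiding `x + 3y = 2z + 2w` with a larger exponent
-/

set_option autoImplicit false

namespace Pool.Agent.Results.MP_d03285_co.HigherPower

open Finset Pool.Agent.Y426.RZ

/-- `A` contains no pairwise distinct `x, y, z, w` with `x + 3y = 2z + 2w`. -/
def Admissible (A : Finset ℕ) : Prop :=
  ∀ x ∈ A, ∀ y ∈ A, ∀ z ∈ A, ∀ w ∈ A,
    x ≠ y → x ≠ z → x ≠ w → y ≠ z → y ≠ w → z ≠ w → x + 3 * y ≠ 2 * z + 2 * w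

/-- The largest size of an admissible subset of `{1, …, N}`. -/
noncomputable def f (N : ℕ) : ℕ :=
  sSup {m : ℕ | ∃ A ⊆ Finset.Icc 1 N, Admissible A ∧ A.card = m}

/-- `A` contains no solution of `x + 3y = 2z + 2w` other than `x = y = z = w`. -/
def OnlyTrivial (A : Finset ℕ) : Prop :=
  ∀ x ∈ A, ∀ y ∈ A, ∀ z ∈ A, ∀ w ∈ A, x + 3 * y = 2 * z + 2 * w → x = y ∧ x = z ∧ x = w

theorem le_f {N : ℕ} {A : Finset ℕ} (hA : A ⊆ Finset.Icc 1 N) (h : OnlyTrivial A) :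
    A.card ≤ f N := by
  apply le_csSup
  · refine ⟨N, ?_⟩
    rintro m ⟨B, hB, -, rfl⟩
    simpa using Finset.card_le_card hB
  · refine ⟨A, hA, ?_, rfl⟩
    intro x hx y hy z hz w hw hxy _ _ _ _ _ heq
    exact hxy (h x hx y hy z hz w hw heq).1

theorem result :
    (Real.log 15 / Real.log 125 < Real.log 37 / Real.log 625) ∧
    (∀ c : ℝ, c < Real.log 37 / Real.log 625 → ∃ N₀ : ℕ, ∀ N : ℕ, N₀ ≤ N →
      (∃ A ⊆ Finset.Icc 1 N, OnlyTrivial A ∧ (N : ℝ) ^ c ≤ A.card) ∧ (N : ℝ) ^ c ≤ f N) := by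
  refine ⟨?_, ?_⟩
  · have h5 : (0 : ℝ) < Real.log 5 := Real.log_pos (by norm_num)
    have h125 : Real.log 125 = 3 * Real.log 5 := by
      rw [show (125 : ℝ) = 5 ^ 3 by norm_num, Real.log_pow]
      norm_num
    have h625 : Real.log 625 = 4 * Real.log 5 := by
      rw [show (625 : ℝ) = 5 ^ 4 by norm_num, Real.log_pow]
      norm_num
    rw [h125, h625, div_lt_div_iff₀ (by positivity) (by positivity)]
    have h : Real.log ((15 : ℝ) ^ 4) < Real.log ((37 : ℝ) ^ 3) :=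
      Real.log_lt_log (by norm_num) (by norm_num)
    rw [Real.log_pow, Real.log_pow] at h
    push_cast at h
    nlinarith
  · intro c hc
    have h625 : Real.log 625 = ((4 : ℕ) : ℝ) * Real.log ((5 : ℕ) : ℝ) := by
      rw [show (625 : ℝ) = ((5 : ℕ) : ℝ) ^ (4 : ℕ) by norm_num, Real.log_pow]
    have hpos : 0 < Real.log 37 / Real.log 625 :=
      div_pos (Real.log_pos (by norm_num)) (Real.log_pos (by norm_num))
    have hc' : max c 0 < Real.log ((37 : ℕ) : ℝ) / (((4 : ℕ) : ℝ) * Real.log ((5 : ℕ) : ℝ)) := by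
      rw [← h625]
      push_cast
      exact max_lt hc hpos
    obtain ⟨N₀, hN₀⟩ := g_ge_rpow (K := 37) (k := 4) 5 S (by norm_num) (by norm_num)
      (by norm_num) S_lt (fun a => -3 * (4 : ℤ) ^ (a : ℕ)) (fun a => (4 : ℤ) ^ (a : ℕ))
      (fun a => (4 : ℤ) ^ (a : ℕ)) (fun a => by ring) cert (max c 0) (le_max_right _ _) hc'
    refine ⟨max N₀ 1, fun N hN => ?_⟩
    have h1 : (1 : ℝ) ≤ N := by exact_mod_cast (le_max_right _ _).trans hN
    have h2 : (N : ℝ) ^ c ≤ gT N :=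
      (Real.rpow_le_rpow_of_exponent_le h1 (le_max_left _ _)).trans
        (hN₀ N ((le_max_left _ _).trans hN))
    obtain ⟨A, hA1, hA2, hA3⟩ := g_attained N
    rw [← hA3] at h2
    have hA4 : OnlyTrivial A := by
      intro x hx y hy z hz w hw h
      have := hA2 x hx y hy z hz w hw h
      omega
    exact ⟨⟨A, hA1, hA4, h2⟩, h2.trans (by exact_mod_cast le_f hA1 hA4)⟩

end Pool.Agent.Results.MP_d03285_co.HigherPower
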